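import Mathlib

/-!
# Resolvents and the bicommutant of almost isometric operators: a counterexample

On every infinite dimensional complex Hilbert space `H` there is an almost isometric operator `T`
(in fact `T = 1 + Q` with `Q` of trace class) whose bicommutant is not contained in the closure, in
the weak operator topology, of the linear span of the resolvents of `T`.

`Q` is the orthogonal sum of a bilateral weighted shift with weights `2 ^ (-|n|)` and of a zero
operator on a nonzero space. The orthogonal projection onto the space of the shift lies in the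
bicommutant; the functional `A ↦ ⟪e 0, A (e 0)⟫ - ⟪f, A f⟫` (with `f` a unit vector in the kernel of
`Q` orthogonal to the shift space) kills all resolvents but not this projection.
-/

set_option autoImplicit false

namespace Pool.Agent.Results.MP_9e58cf_an.Disproof

open scoped InnerProductSpace
open Filter Topology

universe u

variable {H : Type u} [NormedAddCommGroup H] [InnerProductSpace ℂ H] [CompleteSpace H]

/-- `A` is of trace class: `A = ∑ₙ ⟪yₙ, ·⟫ xₙ` with `∑ₙ ‖xₙ‖ ‖yₙ‖ < ∞`. -/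
def IsTraceClass (A : H →L[ℂ] H) : Prop :=
  ∃ x y : ℕ → H, Summable (fun n => ‖x n‖ * ‖y n‖) ∧
    ∀ v : H, HasSum (fun n => ⟪y n, v⟫_ℂ • x n) (A v)

/-- `T` is almost isometric: `I - T* T` is of trace class. -/
def IsAlmostIsometric (T : H →L[ℂ] H) : Prop :=
  IsTraceClass (1 - ContinuousLinearMap.adjoint T * T)

/-- The set of the resolvents `R_z = (T - z I)⁻¹`, `z ∉ σ(T)`. -/
def resolvents (T : H →L[ℂ] H) : Set (H →L[ℂ] H) :=
  {R | ∃ z : ℂ, z ∉ spectrum ℂ T ∧ R = Ring.inverse (T - z • (1 : H →L[ℂ] H))}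

/-- `ℛ(T)`: the closure, in the weak operator topology, of the linear span of the resolvents. -/
def resolventSpace (T : H →L[ℂ] H) : Set (H →L[ℂ] H) :=
  {S | ContinuousLinearMapWOT.ofCLM S ∈
    closure (ContinuousLinearMapWOT.ofCLM '' (Submodule.span ℂ (resolvents T) : Set (H →L[ℂ] H)))}

/-- The bicommutant `{T}''`. -/
def bicommutant (T : H →L[ℂ] H) : Set (H →L[ℂ] H) :=
  Set.centralizer (Set.centralizer {T})

/-! ### Trace class operators -/

omit [CompleteSpace H] in
theorem IsTraceClass.of_index {ι : Type} [Countable ι] (A : H →L[ℂ] H) (x y : ι → H)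
    (hs : Summable (fun n => ‖x n‖ * ‖y n‖))
    (h : ∀ v : H, HasSum (fun n => ⟪y n, v⟫_ℂ • x n) (A v)) : IsTraceClass A := by
  obtain ⟨g, hg⟩ := exists_injective_nat ι
  refine ⟨Function.extend g x 0, Function.extend g y 0, ?_, ?_⟩
  · rw [← hg.summable_iff]
    · convert hs using 2 with n
      simp [hg.extend_apply]
    · intro m hm
      have hm' : ¬ ∃ a, g a = m := hm
      simp [Function.extend_apply' _ _ _ hm']
  · intro v
    rw [← hg.hasSum_iff]
    · convert h v using 2 with n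
      simp [hg.extend_apply]
    · intro m hm
      have hm' : ¬ ∃ a, g a = m := hm
      simp [Function.extend_apply' _ _ _ hm']

omit [CompleteSpace H] in
theorem IsTraceClass.add {A B : H →L[ℂ] H} (hA : IsTraceClass A) (hB : IsTraceClass B) :
    IsTraceClass (A + B) := by
  obtain ⟨x, y, h1, h2⟩ := hA
  obtain ⟨x', y', h1', h2'⟩ := hB
  refine IsTraceClass.of_index (ι := ℕ ⊕ ℕ) _ (Sum.elim x x') (Sum.elim y y') ?_ ?_
  · exact Summable.sum (fun n : ℕ ⊕ ℕ => ‖Sum.elim x x' n‖ * ‖Sum.elim y y' n‖) h1 h1'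
  · intro v
    have h3 : HasSum ((fun n : ℕ ⊕ ℕ => ⟪Sum.elim y y' n, v⟫_ℂ • Sum.elim x x' n) ∘ Sum.inl)
        (A v) := h2 v
    have h4 : HasSum ((fun n : ℕ ⊕ ℕ => ⟪Sum.elim y y' n, v⟫_ℂ • Sum.elim x x' n) ∘ Sum.inr)
        (B v) := h2' v
    exact HasSum.sum h3 h4

omit [CompleteSpace H] in
theorem IsTraceClass.mul_left {A : H →L[ℂ] H} (B : H →L[ℂ] H) (hA : IsTraceClass A) :
    IsTraceClass (B * A) := by
  obtain ⟨x, y, h1, h2⟩ := hA
  refine ⟨fun n => B (x n), y, ?_, ?_⟩
  · refine Summable.of_nonneg_of_le (fun n => by positivity) (fun n => ?_) (h1.mul_left ‖B‖)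
    calc ‖B (x n)‖ * ‖y n‖ ≤ (‖B‖ * ‖x n‖) * ‖y n‖ := by
          gcongr
          exact B.le_opNorm _
      _ = ‖B‖ * (‖x n‖ * ‖y n‖) := by ring
  · intro v
    have := (h2 v).mapL B
    simpa using this

theorem IsTraceClass.adjoint {A : H →L[ℂ] H} (hA : IsTraceClass A) :
    IsTraceClass (ContinuousLinearMap.adjoint A) := by
  obtain ⟨x, y, h1, h2⟩ := hA
  refine ⟨y, x, ?_, ?_⟩
  · simpa [mul_comm] using h1
  · intro v
    have hsum : Summable (fun n => ⟪x n, v⟫_ℂ • y n) := by
      refine Summable.of_norm_bounded (h1.mul_left ‖v‖) (fun n => ?_)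
      rw [norm_smul]
      calc ‖⟪x n, v⟫_ℂ‖ * ‖y n‖ ≤ (‖x n‖ * ‖v‖) * ‖y n‖ := by
            gcongr
            exact norm_inner_le_norm _ _
        _ = ‖v‖ * (‖x n‖ * ‖y n‖) := by ring
    convert hsum.hasSum
    refine ext_inner_right ℂ fun u => ?_
    rw [ContinuousLinearMap.adjoint_inner_left]
    have h3 := (h2 u).mapL (innerSL ℂ v)
    have h4 := hsum.hasSum.mapL (innerSL ℂ u)
    have h5 : ⟪u, ∑' n, ⟪x n, v⟫_ℂ • y n⟫_ℂ = ∑' n, ⟪x n, v⟫_ℂ * ⟪u, y n⟫_ℂ := by
      have := h4.tsum_eq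
      simpa [inner_smul_right] using this.symm
    have h6 : ⟪v, A u⟫_ℂ = ∑' n, ⟪y n, u⟫_ℂ * ⟪v, x n⟫_ℂ := by
      have := h3.tsum_eq
      simpa [inner_smul_right] using this.symm
    rw [h6, ← inner_conj_symm, h5, Complex.conj_tsum]
    congr 1
    funext n
    rw [map_mul, inner_conj_symm, inner_conj_symm, mul_comm]

/-! ### The weighted shift -/

/-- The weights. -/
noncomputable def w (n : ℤ) : ℝ := (1 / 2) ^ n.natAbs

theorem w_pos (n : ℤ) : 0 < w n := by unfold w; positivity

theorem w_summable : Summable w := by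
  unfold w
  rw [summable_int_iff_summable_nat_and_neg]
  constructor
  · simpa using summable_geometric_two
  · simpa using summable_geometric_two

theorem exists_Q (e : ℤ → H) (he : Orthonormal ℂ e) :
    ∃ Q : H →L[ℂ] H, (∀ v, HasSum (fun n : ℤ => ⟪e n, v⟫_ℂ • ((w n : ℂ) • e (n + 1))) (Q v)) ∧
      IsTraceClass Q := by
  have hsum : Summable (fun n : ℤ => InnerProductSpace.rankOne ℂ ((w n : ℂ) • e (n + 1)) (e n)) := by
    refine Summable.of_norm ?_
    refine w_summable.congr fun n => ?_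
    rw [InnerProductSpace.norm_rankOne, norm_smul, he.1, he.1]
    simp [abs_of_pos (w_pos n)]
  have hQ : ∀ v, HasSum (fun n : ℤ => ⟪e n, v⟫_ℂ • ((w n : ℂ) • e (n + 1)))
      ((∑' n : ℤ, InnerProductSpace.rankOne ℂ ((w n : ℂ) • e (n + 1)) (e n)) v) := by
    intro v
    have := hsum.hasSum.mapL (ContinuousLinearMap.apply ℂ H v)
    exact this
  refine ⟨∑' n : ℤ, InnerProductSpace.rankOne ℂ ((w n : ℂ) • e (n + 1)) (e n), hQ, ?_⟩
  refine IsTraceClass.of_index _ (fun n : ℤ => (w n : ℂ) • e (n + 1)) e ?_ hQ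
  refine w_summable.congr fun n => ?_
  rw [norm_smul, he.1, he.1]
  simp [abs_of_pos (w_pos n)]

/-- The relation defining the weighted shift `Q`. -/
def IsShift (e : ℤ → H) (Q : H →L[ℂ] H) : Prop :=
  ∀ v, HasSum (fun n : ℤ => ⟪e n, v⟫_ℂ • ((w n : ℂ) • e (n + 1))) (Q v)

section

variable {e : ℤ → H} {Q : H →L[ℂ] H}

theorem wC_ne (n : ℤ) : (w n : ℂ) ≠ 0 := by
  exact_mod_cast (w_pos n).ne'

omit [CompleteSpace H] in
theorem inner_Q (he : Orthonormal ℂ e) (hQ : IsShift e Q) (n : ℤ) (v : H) :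
    ⟪e (n + 1), Q v⟫_ℂ = (w n : ℂ) * ⟪e n, v⟫_ℂ := by
  have h1 := (hQ v).mapL (innerSL ℂ (e (n + 1)))
  have h2 : HasSum (fun m : ℤ => innerSL ℂ (e (n + 1)) (⟪e m, v⟫_ℂ • ((w m : ℂ) • e (m + 1))))
      (innerSL ℂ (e (n + 1)) (⟪e n, v⟫_ℂ • ((w n : ℂ) • e (n + 1)))) := by
    apply hasSum_single
    intro m hm
    have h3 : ⟪e (n + 1), e (m + 1)⟫_ℂ = 0 := he.2 (by omega)
    simp only [innerSL_apply_apply, inner_smul_right, h3]
    ring
  have h4 := h1.unique h2
  have h5 : ⟪e (n + 1), e (n + 1)⟫_ℂ = 1 := by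
    rw [inner_self_eq_norm_sq_to_K, he.1]
    simp
  simp only [innerSL_apply_apply, inner_smul_right, h5] at h4
  rw [h4]
  ring

omit [CompleteSpace H] in
theorem Q_e (he : Orthonormal ℂ e) (hQ : IsShift e Q) (n : ℤ) :
    Q (e n) = (w n : ℂ) • e (n + 1) := by
  have h2 : HasSum (fun m : ℤ => ⟪e m, e n⟫_ℂ • ((w m : ℂ) • e (m + 1)))
      (⟪e n, e n⟫_ℂ • ((w n : ℂ) • e (n + 1))) := by
    apply hasSum_single
    intro m hm
    have h3 : ⟪e m, e n⟫_ℂ = 0 := he.2 hm
    rw [h3, zero_smul]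
  have h4 := (hQ (e n)).unique h2
  have h5 : ⟪e n, e n⟫_ℂ = 1 := by
    rw [inner_self_eq_norm_sq_to_K, he.1]
    simp
  rw [h4, h5, one_smul]

omit [CompleteSpace H] in
theorem ker_iff (he : Orthonormal ℂ e) (hQ : IsShift e Q) (v : H) :
    Q v = 0 ↔ ∀ n, ⟪e n, v⟫_ℂ = 0 := by
  constructor
  · intro h n
    have h1 := inner_Q he hQ n v
    rw [h, inner_zero_right] at h1
    exact (mul_eq_zero.1 h1.symm).resolve_left (wC_ne n)
  · intro h
    refine (hQ v).unique ?_
    simp only [h, zero_smul]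
    exact hasSum_zero

theorem ker_adj_iff (he : Orthonormal ℂ e) (hQ : IsShift e Q) (v : H) :
    ContinuousLinearMap.adjoint Q v = 0 ↔ ∀ n, ⟪e n, v⟫_ℂ = 0 := by
  constructor
  · intro h n
    have h1 : ⟪e (n - 1), ContinuousLinearMap.adjoint Q v⟫_ℂ = 0 := by rw [h, inner_zero_right]
    rw [ContinuousLinearMap.adjoint_inner_right, Q_e he hQ, inner_smul_left] at h1
    have h2 := (mul_eq_zero.1 h1).resolve_left (by simpa using wC_ne (n - 1))
    simpa using h2
  · intro h
    refine ext_inner_left ℂ fun u => ?_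
    rw [ContinuousLinearMap.adjoint_inner_right, inner_zero_right]
    have h1 := (hQ u).mapL (innerSL ℂ v)
    have h2 : ⟪v, Q u⟫_ℂ = 0 := by
      refine h1.unique ?_
      have h3 : ∀ n : ℤ, ⟪v, e n⟫_ℂ = 0 := fun n => by
        rw [← inner_conj_symm, h n, map_zero]
      simp only [innerSL_apply_apply, inner_smul_right, h3, mul_zero]
      exact hasSum_zero
    rw [← inner_conj_symm, h2, map_zero]

/-- The projection onto the kernel of `Q` commutes with everything that commutes with `Q`. -/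
theorem proj_comm (he : Orthonormal ℂ e) (hQ : IsShift e Q) (A : H →L[ℂ] H)
    (hA : A * Q = Q * A) :
    A * (LinearMap.ker (Q : H →ₗ[ℂ] H)).starProjection =
      (LinearMap.ker (Q : H →ₗ[ℂ] H)).starProjection * A := by
  set L := LinearMap.ker (Q : H →ₗ[ℂ] H) with hL
  have hmem : ∀ v, v ∈ L ↔ ∀ n, ⟪e n, v⟫_ℂ = 0 := by
    intro v
    rw [hL, LinearMap.mem_ker]
    exact ker_iff he hQ v
  have hAL : ∀ v ∈ L, A v ∈ L := by
    intro v hv
    rw [hL, LinearMap.mem_ker] at hv ⊢
    have h1 : (A * Q) v = (Q * A) v := by rw [hA]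
    have h2 : Q v = 0 := hv
    have h3 : (A * Q) v = A (Q v) := rfl
    rw [h3, h2, map_zero] at h1
    exact h1.symm
  have hA' : ContinuousLinearMap.adjoint A * ContinuousLinearMap.adjoint Q =
      ContinuousLinearMap.adjoint Q * ContinuousLinearMap.adjoint A := by
    have h1 := congrArg ContinuousLinearMap.adjoint hA
    have h2 : ContinuousLinearMap.adjoint (A * Q) =
        ContinuousLinearMap.adjoint Q * ContinuousLinearMap.adjoint A :=
      ContinuousLinearMap.adjoint_comp A Q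
    have h3 : ContinuousLinearMap.adjoint (Q * A) =
        ContinuousLinearMap.adjoint A * ContinuousLinearMap.adjoint Q :=
      ContinuousLinearMap.adjoint_comp Q A
    rw [h2, h3] at h1
    exact h1.symm
  have hAL' : ∀ v ∈ L, ContinuousLinearMap.adjoint A v ∈ L := by
    intro v hv
    rw [hmem, ← ker_adj_iff he hQ] at hv ⊢
    have h1 : (ContinuousLinearMap.adjoint A * ContinuousLinearMap.adjoint Q) v =
      (ContinuousLinearMap.adjoint Q * ContinuousLinearMap.adjoint A) v := by rw [hA']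
    have h3 : (ContinuousLinearMap.adjoint A * ContinuousLinearMap.adjoint Q) v =
      ContinuousLinearMap.adjoint A (ContinuousLinearMap.adjoint Q v) := rfl
    rw [h3, hv, map_zero] at h1
    exact h1.symm
  ext x
  show A (L.starProjection x) = L.starProjection (A x)
  have h1 : A x = A (L.starProjection x) + A (x - L.starProjection x) := by
    rw [← map_add]
    congr 1
    abel
  have h2 : L.starProjection (A (L.starProjection x)) = A (L.starProjection x) :=
    Submodule.starProjection_eq_self_iff.2 (hAL _ (Submodule.starProjection_apply_mem _ _))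
  have h3 : L.starProjection (A (x - L.starProjection x)) = 0 := by
    rw [Submodule.starProjection_apply_eq_zero_iff]
    rw [Submodule.mem_orthogonal]
    intro u hu
    rw [← ContinuousLinearMap.adjoint_inner_left]
    exact (Submodule.mem_orthogonal _ _).1 (Submodule.sub_starProjection_mem_orthogonal x) _
      (hAL' u hu)
  rw [h1, map_add, h2, h3, add_zero]

end

/-! ### The functional kills the resolvents -/

section

variable {e : ℤ → H} {Q : H →L[ℂ] H} {f : H}

omit [CompleteSpace H] in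
theorem resolvent_identity (he : Orthonormal ℂ e) (hQ : IsShift e Q) (hf : ‖f‖ = 1)
    (hef : ∀ n, ⟪e n, f⟫_ℂ = 0) (R : H →L[ℂ] H) (c : ℂ)
    (hR : R * (c • (1 : H →L[ℂ] H) + Q) = 1) : ⟪e 0, R (e 0)⟫_ℂ = ⟪f, R f⟫_ℂ := by
  have hff : ⟪f, f⟫_ℂ = 1 := by
    rw [inner_self_eq_norm_sq_to_K, hf]
    simp
  have happ : ∀ v, R (c • v + Q v) = v := by
    intro v
    have h1 : (R * (c • (1 : H →L[ℂ] H) + Q)) v = v := by rw [hR]; rfl
    exact h1
  have h1 : c * ⟪f, R f⟫_ℂ = 1 := by
    have h2 := happ f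
    rw [(ker_iff he hQ f).2 hef, add_zero, map_smul] at h2
    have h3 := congrArg (fun v => ⟪f, v⟫_ℂ) h2
    simp only [inner_smul_right] at h3
    rw [h3, hff]
  have hc : c ≠ 0 := by
    rintro rfl
    simp at h1
  have hrec : ∀ n : ℤ, c * ⟪e 0, R (e n)⟫_ℂ + (w n : ℂ) * ⟪e 0, R (e (n + 1))⟫_ℂ = ⟪e 0, e n⟫_ℂ := by
    intro n
    have h2 := happ (e n)
    rw [Q_e he hQ, map_add, map_smul, map_smul] at h2
    have h3 := congrArg (fun v => ⟪e 0, v⟫_ℂ) h2
    simpa only [inner_add_right, inner_smul_right] using h3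
  -- the coefficients with positive index vanish
  have hb : ∀ n : ℤ, ‖⟪e 0, R (e n)⟫_ℂ‖ ≤ ‖R‖ := by
    intro n
    calc ‖⟪e 0, R (e n)⟫_ℂ‖ ≤ ‖e 0‖ * ‖R (e n)‖ := norm_inner_le_norm _ _
      _ ≤ ‖e 0‖ * (‖R‖ * ‖e n‖) := by
          gcongr
          exact R.le_opNorm _
      _ = ‖R‖ := by rw [he.1, he.1]; ring
  have hrec' : ∀ n : ℕ, ‖c‖ * ‖⟪e 0, R (e (n + 1 : ℕ))⟫_ℂ‖ =
      w (n + 1 : ℕ) * ‖⟪e 0, R (e (n + 2 : ℕ))⟫_ℂ‖ := by
    intro n
    have h2 := hrec ((n + 1 : ℕ) : ℤ)
    have h3 : ⟪e 0, e ((n + 1 : ℕ) : ℤ)⟫_ℂ = 0 := he.2 (by omega)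
    rw [h3] at h2
    have h4 : c * ⟪e 0, R (e (n + 1 : ℕ))⟫_ℂ =
        -((w (n + 1 : ℕ) : ℂ) * ⟪e 0, R (e (((n + 1 : ℕ) : ℤ) + 1))⟫_ℂ) := by
      linear_combination h2
    have h5 := congrArg norm h4
    rw [norm_mul, norm_neg, norm_mul] at h5
    have h6 : ((n + 1 : ℕ) : ℤ) + 1 = ((n + 2 : ℕ) : ℤ) := by push_cast; ring
    rw [h6] at h5
    rw [h5]
    simp [abs_of_pos (w_pos _)]
  have hwle : ∀ n : ℕ, w (n + 1 : ℕ) ≤ 1 / ((n : ℝ) + 1) := by
    intro n
    unfold w
    rw [Int.natAbs_natCast, one_div, inv_pow, one_div]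
    apply inv_anti₀ (by positivity)
    have : n + 1 < 2 ^ (n + 1) := Nat.lt_two_pow_self
    exact_mod_cast this.le
  have hcpos : 0 < ‖c‖ := norm_pos_iff.2 hc
  have hprod : ∀ n : ℕ, ‖⟪e 0, R (e (1 : ℕ))⟫_ℂ‖ ≤
      ((1 / ‖c‖) ^ n / (n.factorial : ℝ)) * ‖⟪e 0, R (e (n + 1 : ℕ))⟫_ℂ‖ := by
    intro n
    induction n with
    | zero => simp
    | succ n ih =>
      refine ih.trans ?_
      have h2 : ‖⟪e 0, R (e (n + 1 : ℕ))⟫_ℂ‖ =
          (1 / ‖c‖) * (w (n + 1 : ℕ) * ‖⟪e 0, R (e (n + 2 : ℕ))⟫_ℂ‖) := by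
        rw [← hrec' n]
        field_simp
      rw [h2, Nat.factorial_succ]
      have h3 : (1 / ‖c‖) ^ n / (n.factorial : ℝ) *
          ((1 / ‖c‖) * (w (n + 1 : ℕ) * ‖⟪e 0, R (e (n + 2 : ℕ))⟫_ℂ‖)) ≤
          (1 / ‖c‖) ^ n / (n.factorial : ℝ) *
          ((1 / ‖c‖) * (1 / ((n : ℝ) + 1) * ‖⟪e 0, R (e (n + 2 : ℕ))⟫_ℂ‖)) := by
        gcongr
        exact hwle n
      refine h3.trans (le_of_eq ?_)
      have h4 : (n.factorial : ℝ) ≠ 0 := by positivity
      have h5 : (n : ℝ) + 1 ≠ 0 := by positivity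
      have h6 : n + 1 + 1 = n + 2 := rfl
      rw [h6, pow_succ]
      generalize ‖⟪e 0, R (e ((n + 2 : ℕ) : ℤ))⟫_ℂ‖ = t
      push_cast
      field_simp
  have hzero : ⟪e 0, R (e (1 : ℕ))⟫_ℂ = 0 := by
    rw [← norm_le_zero_iff]
    have hlim : Tendsto (fun n : ℕ => ((1 / ‖c‖) ^ n / (n.factorial : ℝ)) * ‖R‖) atTop (𝓝 0) := by
      simpa using (FloorSemiring.tendsto_pow_div_factorial_atTop (1 / ‖c‖)).mul_const ‖R‖
    refine ge_of_tendsto' hlim fun n => (hprod n).trans ?_
    gcongr
    exact hb _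
  have h0 := hrec 0
  have h00 : ⟪e 0, e 0⟫_ℂ = 1 := by
    rw [inner_self_eq_norm_sq_to_K, he.1]
    simp
  have h01 : ⟪e 0, R (e (0 + 1))⟫_ℂ = 0 := by simpa using hzero
  rw [h01, mul_zero, add_zero, h00] at h0
  exact mul_left_cancel₀ hc (h0.trans h1.symm)

end

/-- **Main theorem.** On every infinite dimensional complex Hilbert space there is an almost
isometric operator `T` and an operator `S` in the bicommutant `{T}''` which is not in the closure
`ℛ(T)`, in the weak operator topology, of the linear span of the resolvents of `T`. -/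
theorem result (H : Type u) [NormedAddCommGroup H] [InnerProductSpace ℂ H] [CompleteSpace H]
    (hH : ¬ FiniteDimensional ℂ H) :
    ∃ T : H →L[ℂ] H, IsAlmostIsometric T ∧ ∃ S ∈ bicommutant T, S ∉ resolventSpace T := by
  classical
  -- an orthonormal family
  obtain ⟨s, b, hb⟩ := exists_hilbertBasis ℂ H
  have hs : Infinite s := by
    by_contra hfin
    rw [not_infinite_iff_finite] at hfin
    have := Fintype.ofFinite s
    exact hH (b.toOrthonormalBasis.toBasis.finiteDimensional_of_finite)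
  obtain ⟨g, hg⟩ := exists_injective_nat (Option ℤ)
  let v : Option ℤ → H := fun o => b (Infinite.natEmbedding s (g o))
  have hv : Orthonormal ℂ v :=
    b.orthonormal.comp (fun o => Infinite.natEmbedding s (g o))
      ((Infinite.natEmbedding s).injective.comp hg)
  let e : ℤ → H := fun n => v (some n)
  let f : H := v none
  have he : Orthonormal ℂ e := hv.comp some (Option.some_injective _)
  have hf : ‖f‖ = 1 := hv.1 none
  have hef : ∀ n, ⟪e n, f⟫_ℂ = 0 := fun n => hv.2 (by simp)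
  have hff : ⟪f, f⟫_ℂ = 1 := by
    rw [inner_self_eq_norm_sq_to_K, hf]
    simp
  obtain ⟨Q, hQ, hQt⟩ := exists_Q e he
  refine ⟨1 + Q, ?_, ?_⟩
  · -- almost isometric
    have h1 : 1 - ContinuousLinearMap.adjoint (1 + Q) * (1 + Q) =
        (-1 : H →L[ℂ] H) * Q + ((-1 : H →L[ℂ] H) * ContinuousLinearMap.adjoint Q +
          (-ContinuousLinearMap.adjoint Q) * Q) := by
      have h2 : ContinuousLinearMap.adjoint (1 + Q) = 1 + ContinuousLinearMap.adjoint Q := by
        rw [map_add]
        congr 1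
        exact star_one _
      rw [h2]
      noncomm_ring
    unfold IsAlmostIsometric
    rw [h1]
    exact (hQt.mul_left _).add ((hQt.adjoint.mul_left _).add (hQt.mul_left _))
  · set L := LinearMap.ker (Q : H →ₗ[ℂ] H) with hL
    -- the projection is in the bicommutant
    have hP : L.starProjection ∈ bicommutant (1 + Q) := by
      intro A hA
      have hA' : (1 + Q) * A = A * (1 + Q) := hA (1 + Q) rfl
      have hA'' : A * Q = Q * A := by
        rw [add_mul, mul_add, one_mul, mul_one] at hA'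
        exact (add_left_cancel hA').symm
      exact proj_comm he hQ A hA''
    refine ⟨L.starProjection, hP, fun hR => ?_⟩
    -- the functional vanishes on the resolvent space
    let φ : ContinuousLinearMapWOT (RingHom.id ℂ) H H → ℂ := fun A =>
      (innerSL ℂ (e 0)) (A (e 0)) - (innerSL ℂ f) (A f)
    have hφ : Continuous φ :=
      (ContinuousLinearMapWOT.continuous_dual_apply (e 0) (innerSL ℂ (e 0))).sub
        (ContinuousLinearMapWOT.continuous_dual_apply f (innerSL ℂ f))
    have hcl : IsClosed {A | φ A = 0} := isClosed_eq hφ continuous_const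
    have hspan : ∀ S ∈ Submodule.span ℂ (resolvents (1 + Q)), ⟪e 0, S (e 0)⟫_ℂ - ⟪f, S f⟫_ℂ = 0 := by
      intro S hS
      induction hS using Submodule.span_induction with
      | mem R hR =>
        obtain ⟨z, hz, rfl⟩ := hR
        have hu : IsUnit ((1 + Q) - z • (1 : H →L[ℂ] H)) := by
          have h1 : IsUnit (algebraMap ℂ (H →L[ℂ] H) z - (1 + Q)) := by
            by_contra hcon
            exact hz hcon
          have h2 := h1.neg
          rwa [neg_sub, Algebra.algebraMap_eq_smul_one] at h2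
        have h3 : Ring.inverse ((1 + Q) - z • (1 : H →L[ℂ] H)) *
            ((1 - z) • (1 : H →L[ℂ] H) + Q) = 1 := by
          have h4 := Ring.inverse_mul_cancel _ hu
          have h5 : (1 - z) • (1 : H →L[ℂ] H) + Q = (1 + Q) - z • (1 : H →L[ℂ] H) := by
            rw [sub_smul, one_smul]
            abel
          rw [h5]
          exact h4
        rw [resolvent_identity he hQ hf hef _ _ h3, sub_self]
      | zero => simp
      | add x y _ _ hx hy =>
        simp only [add_apply, inner_add_right]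
        linear_combination hx + hy
      | smul a x _ hx =>
        simp only [smul_apply, inner_smul_right]
        linear_combination a * hx
    have hsub : ContinuousLinearMapWOT.ofCLM ''
        (Submodule.span ℂ (resolvents (1 + Q)) : Set (H →L[ℂ] H)) ⊆ {A | φ A = 0} := by
      rintro _ ⟨S, hS, rfl⟩
      exact hspan S hS
    have h1 : φ (ContinuousLinearMapWOT.ofCLM L.starProjection) = 0 :=
      closure_minimal hsub hcl hR
    have h2 : L.starProjection f = f := by
      rw [Submodule.starProjection_eq_self_iff, hL, LinearMap.mem_ker]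
      exact (ker_iff he hQ f).2 hef
    have h3 : L.starProjection (e 0) = 0 := by
      rw [Submodule.starProjection_apply_eq_zero_iff, Submodule.mem_orthogonal]
      intro u hu
      rw [hL, LinearMap.mem_ker] at hu
      have h4 := (ker_iff he hQ u).1 hu 0
      rw [← inner_conj_symm, h4, map_zero]
    have h5 : φ (ContinuousLinearMapWOT.ofCLM L.starProjection) =
        ⟪e 0, L.starProjection (e 0)⟫_ℂ - ⟪f, L.starProjection f⟫_ℂ := rfl
    rw [h5, h2, h3, inner_zero_right, hff] at h1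
    norm_num at h1

end Pool.Agent.Results.MP_9e58cf_an.Disproof
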